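import Mathlib

namespace Pool.Agent.Results.MP_b34c1f_co.Fib

open Finset

open Classical in
/-- number of nonempty complete vertex sets -/
noncomputable def f {n : ℕ} (G : SimpleGraph (Fin n)) : ℕ :=
  (univ.filter fun S : Finset (Fin n) => S.Nonempty ∧ G.IsClique (S : Set (Fin n))).card

/-- number of possible clique counts of graphs on n vertices -/
noncomputable def F (n : ℕ) : ℕ := {m | ∃ G : SimpleGraph (Fin n), f G = m}.ncard

open Classical in
noncomputable def g {n : ℕ} (G : SimpleGraph (Fin n)) : ℕ :=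
  (univ.filter fun S : Finset (Fin n) => G.IsClique (S : Set (Fin n))).card

theorem gf {n : ℕ} (G : SimpleGraph (Fin n)) : g G = f G + 1 := by
  classical
  rw [g, f, ← card_insert_of_notMem (a := ∅) (by simp)]
  congr 1
  ext S
  rcases S.eq_empty_or_nonempty with rfl | h
  · simp
  · simp [h, h.ne_empty]

def ext {n : ℕ} (G : SimpleGraph (Fin n)) (b : Prop) : SimpleGraph (Fin (n + 1)) where
  Adj x y := (∃ u v, G.Adj u v ∧ x = u.succ ∧ y = v.succ) ∨ (b ∧ x ≠ y ∧ (x = 0 ∨ y = 0))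
  symm := ⟨by
    rintro x y (⟨u, v, h, rfl, rfl⟩ | ⟨h1, h2, h3⟩)
    · exact Or.inl ⟨v, u, h.symm, rfl, rfl⟩
    · exact Or.inr ⟨h1, h2.symm, h3.symm⟩⟩
  loopless := ⟨by
    rintro x (⟨u, v, h, rfl, e⟩ | ⟨-, h2, -⟩)
    · exact h.ne (Fin.succ_injective _ e)
    · exact h2 rfl⟩

theorem ss {n : ℕ} (G : SimpleGraph (Fin n)) (b : Prop) (u v : Fin n) :
    (ext G b).Adj u.succ v.succ ↔ G.Adj u v := by
  simp [ext, Fin.succ_ne_zero]

theorem zs {n : ℕ} (G : SimpleGraph (Fin n)) (b : Prop) (v : Fin n) :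
    (ext G b).Adj 0 v.succ ↔ b := by
  simp [ext, (Fin.succ_ne_zero _).symm]

theorem sz {n : ℕ} (G : SimpleGraph (Fin n)) (b : Prop) (v : Fin n) :
    (ext G b).Adj v.succ 0 ↔ b := by
  rw [SimpleGraph.adj_comm, zs]

def e (n : ℕ) (p : Bool × Finset (Fin n)) : Finset (Fin (n + 1)) :=
  univ.filter fun x => (Fin.cons p.1 (fun y => decide (y ∈ p.2)) : Fin (n + 1) → Bool) x = true

theorem e0 (n : ℕ) (p : Bool × Finset (Fin n)) : 0 ∈ e n p ↔ p.1 = true := by simp [e]
theorem es (n : ℕ) (p : Bool × Finset (Fin n)) (y : Fin n) : y.succ ∈ e n p ↔ y ∈ p.2 := by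
  simp [e]

theorem ebij (n : ℕ) : Function.Bijective (e n) := by
  rw [Fintype.bijective_iff_injective_and_card]
  refine ⟨fun p q h => Prod.ext ?_ ?_, by simp [pow_succ, mul_comm]⟩
  · rw [Bool.eq_iff_iff, ← e0, ← e0, h]
  · ext y; rw [← es, ← es, h]

theorem cl {n : ℕ} (G : SimpleGraph (Fin n)) (b : Prop) (p : Bool × Finset (Fin n)) :
    (ext G b).IsClique (e n p : Set (Fin (n + 1))) ↔
      G.IsClique (p.2 : Set (Fin n)) ∧ (p.1 = true → p.2.Nonempty → b) := by
  simp only [SimpleGraph.isClique_iff, Set.Pairwise, mem_coe, Fin.forall_fin_succ, e0, es, ss, zs,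
    sz, ne_eq, Fin.succ_inj, Fin.succ_ne_zero, (Fin.succ_ne_zero _).symm, not_true_eq_false,
    not_false_eq_true, Finset.Nonempty]
  constructor
  · rintro ⟨h1, h2⟩
    exact ⟨fun x hx y hy hn => (h2 x hx).2 y hy hn, fun h ⟨y, hy⟩ => (h1 h).2 y hy trivial⟩
  · rintro ⟨h1, h2⟩
    exact ⟨fun h => ⟨fun _ c => c.elim, fun y hy _ => h2 h ⟨y, hy⟩⟩,
      fun x hx => ⟨fun h _ => h2 h ⟨x, hx⟩, fun y hy hn => h1 hx hy hn⟩⟩

theorem gext {n : ℕ} (G : SimpleGraph (Fin n)) :
    g (ext G True) = 2 * g G ∧ g (ext G False) = g G + 1 := by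
  classical
  have key : ∀ b : Prop, g (ext G b) = ∑ p : Bool × Finset (Fin n),
      if G.IsClique (p.2 : Set (Fin n)) ∧ (p.1 = true → p.2.Nonempty → b) then 1 else 0 := by
    intro b
    rw [g, card_filter, ← (ebij n).sum_comp]
    exact sum_congr rfl fun p _ => by simp only [cl]
  constructor
  · rw [key, g, card_filter, Fintype.sum_prod_type]
    simp [two_mul]
  · rw [key, g, card_filter, Fintype.sum_prod_type, Fintype.sum_bool, add_comm]
    congr 1
    · simp
    · rw [sum_eq_single ∅]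
      · simp
      · intro S _ h; simp [h]
      · simp

theorem fin (n : ℕ) : {m | ∃ G : SimpleGraph (Fin n), f G = m}.Finite := Set.finite_range _

theorem step (n : ℕ) : F (n + 1) + F n ≤ F (n + 2) := by
  have i1 : Function.Injective fun m : ℕ => 2 * m + 1 := fun a b h => by simpa using h
  have i2 : Function.Injective fun m : ℕ => 2 * m + 2 := fun a b h => by simpa using h
  rw [F, F, ← Set.ncard_image_of_injective {m | ∃ G : SimpleGraph (Fin (n + 1)), f G = m} i1,
    ← Set.ncard_image_of_injective {m | ∃ G : SimpleGraph (Fin n), f G = m} i2,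
    ← Set.ncard_union_eq _ ((fin _).image _) ((fin _).image _)]
  · refine Set.ncard_le_ncard ?_ (fin _)
    rintro m (⟨_, ⟨G, rfl⟩, rfl⟩ | ⟨_, ⟨G, rfl⟩, rfl⟩)
    · refine ⟨ext G True, ?_⟩
      have := (gext G).1
      simp only [gf] at this ⊢
      omega
    · refine ⟨ext (ext G True) False, ?_⟩
      have h1 := (gext G).1
      have h2 := (gext (ext G True)).2
      simp only [gf] at h1 h2 ⊢
      omega
  · rw [Set.disjoint_left]
    rintro m ⟨a, -, rfl⟩ ⟨b, -, h⟩
    simp only at h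
    omega

theorem result : (∀ n, F (n + 1) + F n ≤ F (n + 2)) ∧ ∀ n, Nat.fib (n + 1) ≤ F n := by
  refine ⟨step, fun n => ?_⟩
  have pos : ∀ n, 1 ≤ F n := fun n => (Set.ncard_pos (fin n)).2 ⟨_, ⊥, rfl⟩
  induction n using Nat.twoStepInduction with
  | zero => exact pos 0
  | one => exact pos 1
  | more n h1 h2 =>
    have := step n
    rw [Nat.fib_add_two]
    omega

end Pool.Agent.Results.MP_b34c1f_co.Fib
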